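import Pool.Agent.H70.NE.All

/-!
# Collapse above a time bound; below it the alternation hierarchy is infinite on average, even with advice

Question of MP_64fb07_lc: is NE = coNE (linear exponents)?
The theorem: whatever local information is written into an oracle at sparse keys, every level of the
alternation hierarchy can be kept hard on average for the level below, and its complement for the level
itself, for all machines for which few keys are relevant. See the claim file for the two special cases
`ESPACE ⊆ DTIME(2 ^ (n g(n)))` and `NE ≠ coNE` (for every unbounded `g`), and `E = ESPACE` with an infinite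
polynomial hierarchy.
-/

set_option autoImplicit false

namespace Pool.Agent.Results.MP_64fb07_lc.ComplementThreshold

open Filter Pool.Agent.H70.NC Pool.Agent.H70.NE

/-- Let `key i` be distinct strings starting with `1`, let `F i O` depend only on the strings of length at
most `dep i < |key i|` of the oracle `O`, and let `0 ≤ η n ≤ 1 / 4`. Let `M j` and `N j` be countably many
oracle machines with questions to a `Σ_(k j)`, `Σ_(k' j)` machine, with advice of length `A j n`, `B j n`.
Then there is an oracle `O` whose keys contain the answers `F i O`, such that for each `j` and all large `n`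
with `8 n ≤ l n` the following holds; let `rel` be the number of keys of length at most the time bound
whose entry depends on strings of length more than `l n`.

* If `time ^ 16 ≤ 2 ^ l n` and `rel + A j n + n ≤ δ j n ^ 2 * 2 ^ n`, `δ j n > 0`, then with every advice of
  length at most `A j n` the machine `M j` agrees with the language `hard l (k j) O` (given by `k j + 1`
  alternating quantifiers over strings of length `l |x|, 2 l |x|, …`) on at most
  `(1 / 2 + η n + δ j n) 2 ^ n` of the inputs of length `n`.
* If `time ^ 16 ≤ 2 ^ l n` and `100 (n + 1) ^ 3 * 2 ^ (rel + B j n) ≤ η n * γ j n ^ 2 * 2 ^ n`,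
  `γ j n > 0`, then with every advice of length at most `B j n` the nondeterministic machine which guesses a
  string and then runs `N j` (a `Σ_(k' j + 1)` machine) agrees with the complement of `hard l (k' j) O` on
  at most `(1 / 2 + η n + γ j n) 2 ^ n` of the inputs of length `n`. -/
theorem result (l : ℕ → ℕ) (hl : StrictMono l) (key : ℕ → List Bool)
    (hkey : Function.Injective key) (hkey1 : ∀ i, ∃ w, key i = true :: w)
    (dep : ℕ → ℕ) (hdep : ∀ i, dep i < (key i).length)
    (F : ℕ → (List Bool → Bool) → Prop)
    (hF : ∀ i O O', (∀ w : List Bool, w.length ≤ dep i → O w = O' w) → (F i O ↔ F i O'))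
    (η : ℕ → ℝ) (hη : ∀ n, 0 ≤ η n ∧ η n ≤ 1 / 4)
    (k : ℕ → ℕ) (M : ∀ j, Mach (k j)) (A : ℕ → ℕ → ℕ) (δ : ℕ → ℕ → ℝ)
    (k' : ℕ → ℕ) (N : ∀ j, Mach (k' j)) (B : ℕ → ℕ → ℕ) (γ : ℕ → ℕ → ℝ) :
    ∃ O : List Bool → Bool, (∀ i, (O (key i) = true ↔ F i O)) ∧
      (∀ j, ∀ᶠ n : ℕ in atTop, 8 * n ≤ l n → (M j).time n ^ 16 ≤ 2 ^ l n → 0 < δ j n →
        (nrel key dep ((M j).time n) (l n) : ℝ) + A j n + n ≤ δ j n ^ 2 * 2 ^ n →
        ∀ a : List Bool, a.length ≤ A j n →
          (num l (M j) O a n : ℝ) ≤ (1 / 2 + η n + δ j n) * 2 ^ n) ∧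
      ∀ j, ∀ᶠ n : ℕ in atTop, 8 * n ≤ l n → (N j).time n ^ 16 ≤ 2 ^ l n → 0 < γ j n →
        100 * ((n : ℝ) + 1) ^ 3 * 2 ^ (nrel key dep ((N j).time n) (l n) + B j n) ≤
          η n * γ j n ^ 2 * 2 ^ n →
        ∀ a : List Bool, a.length ≤ B j n →
          (conum l (N j) O a n : ℝ) ≤ (1 / 2 + η n + γ j n) * 2 ^ n :=
  pf_FIG l key dep F η hl hkey hkey1 hdep hF hη k M A δ k' N B γ

end Pool.Agent.Results.MP_64fb07_lc.ComplementThreshold
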